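import Pool.Agent.R882.TFin

/-!
# Abundance for images of nondegenerate complete intersections in tori

Let `V` be an irreducible component of the set of common zeros in the torus `(ℂ^*)^(n + q)` of a
system `f` of `q` Laurent polynomials which is nondegenerate in the sense of Khovanskii; the Newton
polytopes are arbitrary. `F = FineInt f` is the Fine interior of their Minkowski sum. Suppose that `F`
is not empty, and let `d` be the dimension of the image of `V` in the torus whose characters are the
integral vectors parallel to `F`. Then `κ(V) = d`: this is the theorem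
`MP_5ff3c6_ag.NondegenerateIntersections` of this team (which is used here only for the bound of the
numerical dimension of `V` from above).

The subject of this file are the varieties `W` with a dominant rational map `V ⇢ W` of finite degree
`r`, which is not assumed to be a quotient by a group. Nothing is known about the equations of `W`, and
the ramification of `V ⇢ W` may be arbitrary. Let `w 1, ..., w N` be integral vectors such that the
image `V'` of `V` under the map given by the monomials `x ^ w j` has also the dimension `d`, let `W'`
be the image of `V` in `W × V'` and let `s` be the degree of `W' → W`. If `V ⇢ W'` is birational then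
`s = r`.

* Let `V ⇢ W'` be birational and let `u` be an integral vector such that `u` and the vectors
  `u + M w j` are in the Fine interior. If `r ≤ M + 1` then `p_g(W) > 0`. If `2 r ≤ M + 1` then
  `κ(W) = ν(W) = d`.
* In general, let `ω` be a canonical form on `V` which is twisted by `-M`: the forms `A ω` are regular
  at all prime divisors over `V` for all monomials `A` of degree at most `M` in the `x ^ w j`; for
  instance `ω = x ^ u Res`, where `u` and the `u + M w j` are in the Fine interior. Suppose that the
  trace of `ω` on `W'` is not zero. If `s ≤ M + 1` then `p_g(W) > 0`. If `2 s ≤ M + 1` then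
  `κ(W) = ν(W) = d`.

Here `W` is any projective variety with canonical singularities in its birational class, for instance
a minimal one. By the theorem of Kawamata `κ = ν` implies that a multiple of `K_W` is base point free,
if `W` is minimal.

Proof. By the bound for `V`, and since sections of `m K_W + A` can be pulled back to `V`, `ν(W) ≤ d`.
Let `θ` be the trace of `ω` on `W'`. The traces on `W` of the forms `A θ`, `A` a monomial of degree at
most `M`, are the traces of the regular forms `A ω`, and are therefore regular. At a general point of
`W` they are the sums of the values of `A θ` over the `s` points of the fibre of `W'`, which have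
different images in `V'`. The polynomials of degree `s - 1` separate `s` points; therefore not all the
traces are zero if `s ≤ M + 1`. If `2 s ≤ M + 1`, a vector field on `W` which kills the ratios of the
traces kills also the coordinates of `V'`, because the polynomials of degree `2 s - 1` separate `s`
points together with tangent vectors. So `d` of the ratios are algebraically independent and
`κ(W) ≥ d`.
-/

set_option autoImplicit false
set_option linter.overlappingInstances false

open FF Module Pool.Agent Pool.Agent.W602.GT Pool.Agent.Y172 Pool.Agent.Y191 Pool.Agent.R885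

namespace Pool.Agent.Results.MP_5ff3c6_ag.ImagesOfIntersections

section

variable {K : Type} [Field K] [Algebra ℂ K]

/-- `X` is a projective variety of dimension `n` with canonical singularities; `y` is its generic
point in projective `N`-space. -/
def IsCanonicalVariety {N : ℕ} (y : Fin (N + 1) → K) (n : ℕ) : Prop :=
  NormalModel y ∧ Algebra.trdeg ℂ K = n ∧ Canonical y n

/-- The Laurent polynomials `f l` are nondegenerate: the initial parts `ini v (f l)` have linearly
independent logarithmic gradients at all their common zeros in the torus. -/
def Nondegenerate {r q : ℕ} (f : Fin q → (Fin r → ℤ) →₀ ℂ) : Prop :=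
  ∀ v : Fin r → ℤ, ∀ c : Fin r → ℂ, (∀ i, c i ≠ 0) → (∀ l, ev c (ini v (f l)) = 0) →
    LinearIndependent ℂ fun l => gr c (ini v (f l))

/-- `x` is the generic point of a subvariety, with function field `K`, of the set of common zeros
of the `f l` in the torus `(ℂ^*) ^ r`. -/
def IsGenericPoint {r q : ℕ} (f : Fin q → (Fin r → ℤ) →₀ ℂ) (x : Fin r → K) : Prop :=
  (∀ i, x i ≠ 0) ∧ (∀ l, ev x (f l) = 0) ∧ IntermediateField.adjoin ℂ (Set.range x) = ⊤

/-- The integral vector `u` is in the Fine interior. -/
def InFine {r q : ℕ} (f : Fin q → (Fin r → ℤ) →₀ ℂ) (u : Fin r → ℤ) : Prop :=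
  (fun i => (u i : ℚ)) ∈ FineInt f

/-- The canonical form `ω` is twisted by `-M`: the products of `ω` with the monomials of degree at
most `M` in the functions `t j` are regular at all prime divisors. -/
def IsTwisted {N : ℕ} (n M : ℕ) (t : Fin N → K) (ω : (Fin n → Derivation ℂ K K) → K) : Prop :=
  IsPluri 1 ω ∧ ∀ a : Fin N → ℕ, ∑ j, a j ≤ M → ∀ P : Place ℂ K, Divisorial n P →
    RegAt P (fun D => (∏ j, t j ^ a j) * ω D)

/-- The trace of the canonical form `ω` on the variety with the function field `F` is not zero. The
value of the trace on vector fields `D i` of `F` is the trace of the value of `ω` on the extensions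
`D' i` of the `D i` to `K`. -/
def TraceNe {n : ℕ} (ω : (Fin n → Derivation ℂ K K) → K) (F : IntermediateField ℂ K) : Prop :=
  ∃ (D : Fin n → Derivation ℂ F F) (D' : Fin n → Derivation ℂ K K),
    (∀ i f, D' i (algebraMap F K f) = algebraMap F K (D i f)) ∧
    Algebra.trace F K (ω D') ≠ 0

end

/-- The geometric genus of the variety with the function field `L` is positive: there is a nonzero
canonical form which is regular at all prime divisors. -/
def GenusPositive (L : Type) [Field L] [Algebra ℂ L] (n : ℕ) : Prop :=
  ∃ η : (Fin n → Derivation ℂ L L) → L, IsPluri 1 η ∧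
    (∀ P : Place ℂ L, Divisorial n P → RegAt P η) ∧ ∃ D, η D ≠ 0

/-- `κ(W) = ν(W) = d` for all projective varieties `W` of dimension `n` with canonical singularities
and with function field `L`. The numerical dimension may be computed with any effective integral
divisor. -/
def Abundance (L : Type) [Field L] [Algebra ℂ L] (n d : ℕ) : Prop :=
  ∀ (N : ℕ) (y : Fin (N + 1) → L), IsCanonicalVariety y n →
    kodairaDim y n 0 = (d : WithBot ℕ) ∧
      ∀ A, Effective y A → Integral y A → numericalDim y n 0 A = (d : EReal)

/-- **Abundance for images of nondegenerate complete intersections.** Let `V` be a component, of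
dimension `n ≥ 1`, of the set of common zeros of a nondegenerate system `f` whose Fine interior is not
empty, let `K` be its function field, `x` its generic point. Let `t j` be the monomials with
exponents `w j`, let `V'` be the image of `V` under `t`, and suppose that `V'` and the image of `V` in
the torus of the Fine interior have the same dimension `d`. Let `V ⇢ W` be a dominant rational map of
finite degree, `L` the function field of `W`, and `L(t) ⊆ K` the function field of the image `W'` of
`V` in `W × V'`.

(1) Let `V ⇢ W'` be birational, let `r` be the degree of `V ⇢ W` and let `u` and the `u + M w j` be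
in the Fine interior. If `r ≤ M + 1` then `p_g(W) > 0`. If `2 r ≤ M + 1` then `κ(W) = ν(W) = d`.

(2) Let `s` be the degree of `W' → W`, and suppose that some canonical form on `V` which is twisted by
`-M` has a nonzero trace on `W'`. If `s ≤ M + 1` then `p_g(W) > 0`. If `2 s ≤ M + 1` then
`κ(W) = ν(W) = d`. -/
theorem result {n q N M d : ℕ} (hn : 1 ≤ n) (hM : 1 ≤ M) {f : Fin q → (Fin (n + q) → ℤ) →₀ ℂ}
    (hf : Nondegenerate f) (hF : (FineInt f).Nonempty) {K : Type} [Field K] [Algebra ℂ K]
    {x : Fin (n + q) → K} (hx : IsGenericPoint f x) (hK : Algebra.trdeg ℂ K = n)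
    (hd : Algebra.trdeg ℂ (IntermediateField.adjoin ℂ {z : K | ∃ v ∈ dirs f, z = R885.mono x v}) =
      (d : ℕ)) {w : Fin N → Fin (n + q) → ℤ} {t : Fin N → K} (ht : ∀ j, t j = R885.mono x (w j))
    (hd' : Algebra.trdeg ℂ (IntermediateField.adjoin ℂ (Set.range t)) = (d : ℕ))
    (L : Type) [Field L] [Algebra ℂ L] [Algebra L K] [IsScalarTower ℂ L K]
    [FiniteDimensional L K] :
    (IntermediateField.adjoin L (Set.range t) = ⊤ →
      ∀ u, InFine f u → (∀ j, InFine f (u + (M : ℤ) • w j)) →
        (Module.finrank L K ≤ M + 1 → GenusPositive L n) ∧
        (2 * Module.finrank L K ≤ M + 1 → Abundance L n d)) ∧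
    (∀ ω : (Fin n → Derivation ℂ K K) → K, IsTwisted n M t ω →
      TraceNe ω ((IntermediateField.adjoin L (Set.range t)).restrictScalars ℂ) →
        (Module.finrank L (IntermediateField.adjoin L (Set.range t)) ≤ M + 1 →
          GenusPositive L n) ∧
        (2 * Module.finrank L (IntermediateField.adjoin L (Set.range t)) ≤ M + 1 →
          Abundance L n d)) := by
  classical
  have hess : Algebra.EssFiniteType ℂ K := by
    rw [← IntermediateField.fg_top_iff, ← hx.2.2]
    exact ⟨Finset.univ.image x, by rw [Finset.coe_image, Finset.coe_univ, Set.image_univ]⟩
  have hL : Algebra.trdeg ℂ L = n := Pool.Agent.Y184.NT.trdeg_below (K := K) hK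
  have hnum := (main hn rfl hK hx.1 hx.2.2 hx.2.1 hf hF hd).2
  have hnumL := Pool.Agent.R882.LT.numLe_down (L := L) hK hnum
  have htE : t = fun j => R885.mono x (w j) := funext ht
  have hab : Pool.Agent.W619.Y.KodTrB ℂ L n (fun _ => False) d → Abundance L n d :=
    fun h N y hy => dims_of hL hy.1 hy.2.2 h hnumL
  have h2 : ∀ ω : (Fin n → Derivation ℂ K K) → K, IsTwisted n M t ω →
      TraceNe ω ((IntermediateField.adjoin L (Set.range t)).restrictScalars ℂ) →
        (Module.finrank L (IntermediateField.adjoin L (Set.range t)) ≤ M + 1 →
          GenusPositive L n) ∧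
        (2 * Module.finrank L (IntermediateField.adjoin L (Set.range t)) ≤ M + 1 →
          Abundance L n d) := by
    intro ω hω htr
    have h1 := Pool.Agent.R882.LT.core_img (L := L) hK hd' rfl hω htr
    exact ⟨h1.1, fun h => hab (h1.2 h)⟩
  refine ⟨fun htop u hu hw => ?_, h2⟩
  have e : Fin q ⊕ Fin n ≃ Fin (n + q) := Fintype.equivOfCardEq (by
    rw [Fintype.card_sum, Fintype.card_fin, Fintype.card_fin, Fintype.card_fin, add_comm])
  obtain ⟨ω, hω, hne⟩ := Pool.Agent.R882.LT.exists_twisted hK hx.1 hx.2.2 e hx.2.1
    (fun v => hf v) hM (Pool.Agent.R882.LT.inFine_of hu)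
    (fun j => Pool.Agent.R882.LT.inFine_of (hw j))
  rw [← htE] at hω
  have htr : TraceNe ω ((IntermediateField.adjoin L (Set.range t)).restrictScalars ℂ) := by
    refine Pool.Agent.R882.LT.traceNe_top hK hne ?_
    rw [htop]
    rfl
  have h3 := h2 ω hω htr
  have h4 : Module.finrank L (IntermediateField.adjoin L (Set.range t)) =
      Module.finrank L K := by
    rw [htop]
    exact IntermediateField.finrank_top'
  rw [h4] at h3
  exact h3

end Pool.Agent.Results.MP_5ff3c6_ag.ImagesOfIntersections
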