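import Pool.Agent.R887.CorE
import Pool.Agent.R887.Nef

/-!
Abundance for minimal varieties with multi-valued maps of large degree from a fixed variety.
-/

set_option autoImplicit false

open FF Pool.Agent.W602.GT Pool.Agent.Y172 Pool.Agent.R887

/-- Let `X` be a projective variety of dimension `n ≥ 1` with canonical (for instance terminal)
singularities, with generic point `y`, such that `K_X` is nef, and let `η` be an `m`-canonical form
on `X`, not zero, `m ≥ 1`. Let `X'` be a normal projective variety of dimension `n`, with generic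
point `y'`, and `S` a finite set of prime divisors of `X'`. Suppose that for all `ε > 0` there is a
multi-valued rational map `X' ← X'' → X`, that is a variety `X''` with a generically finite rational
map `p` to `X'`, unramified over the prime divisors of `X'` which are not in `S`, and a dominant
rational map `f` to `X`, such that the intersection number of `n - 1` pull backs by `f` of
hyperplane sections of `X` and one pull back by `p` of a hyperplane section of `X'` is at most
`ε deg f`. Then `η` has no zeros: `m K_X` is trivial, in particular base point free. -/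
theorem Pool.Agent.Results.MP_5ff3c6_ag.MultivaluedMinimal.result
    {K K' : Type} [Field K] [Algebra ℂ K] [Field K'] [Algebra ℂ K'] {N N' n : ℕ}
    {y : Fin (N + 1) → K} {y' : Fin (N' + 1) → K'} (hy : NormalModel y) (hy' : NormalModel y')
    (hn : Algebra.trdeg ℂ K = n) (hn' : Algebra.trdeg ℂ K' = n) (hn0 : 0 < n)
    (hcan : Canonical y n) (hnef : CanonicalNef y n) {m : ℕ} (hm : 1 ≤ m)
    {η : (Fin n → Derivation ℂ K K) → K} (hη : IsSection y n m 0 η) (hη0 : η ≠ 0)
    {S : Set (Place ℂ K')} (hS : S.Finite)
    (h : ∀ ε : ℝ, 0 < ε → ∃ (L : Type) (_ : Field L) (_ : Algebra ℂ L) (φ : K →ₐ[ℂ] L)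
      (ψ : K' →ₐ[ℂ] L), FiniteDimensional ψ.fieldRange L ∧ UnramifiedOutside ψ y' S ∧
        MultiDegreeLe φ ψ y y' (n - 1) 1 ε) :
    ∀ P, IsPrimeDivisor y P → OrdEq P η 0 := by
  have hnum : NumDimLt y n 0 1 := by
    refine numdim2 hy hy' hn hn' hn0 hcan.lc hn0 hS fun ε hε => ?_
    obtain ⟨L, _, _, φ, ψ, h1, h2, h3⟩ := h ε hε
    exact ⟨L, _, _, φ, ψ, h1, h2, hcan.multi hy hy' hn hn' φ ψ h1 S, h3⟩
  exact nef_trivial hy hn hn0 hnum hnef hm hη hη0
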