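import Pool.Agent.R887.NormF

/-!
Self-correspondences of minimal varieties: the canonical divisor is numerically trivial if one of
them is of large degree.
-/

set_option autoImplicit false

open FF Pool.Agent.W602.GT Pool.Agent.Y172 Pool.Agent.R887

/-- Let `X` be a projective variety of dimension `n ≥ 1` with canonical (for instance terminal)
singularities, with generic point `y`, such that `K_X` is nef. Let `X ← X'' → X` be a
self-correspondence: a variety `X''` with a generically finite rational map `p` to `X`, unramified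
over the prime divisors of `X`, and a dominant rational map `f` to `X`. Suppose that the
intersection number of `n - 1` pull backs by `f` of hyperplane sections of `X` and one pull back by
`p` of a hyperplane section of `X` is at most `c deg f`, where `c < 1`. Then the numerical dimension
of `K_X` is zero, that is, `K_X` is numerically trivial, and the sections `η ≠ 0` of `m K_X` have
no zeros, for all `m ≥ 1`. -/
theorem Pool.Agent.Results.MP_5ff3c6_ag.SelfCorrespondenceGap.result
    {K L : Type} [Field K] [Algebra ℂ K] [Field L] [Algebra ℂ L] {N n : ℕ}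
    {y : Fin (N + 1) → K} (hy : NormalModel y) (hn : Algebra.trdeg ℂ K = n) (hn0 : 0 < n)
    (hcan : Canonical y n) (hnef : CanonicalNef y n) (φ ψ : K →ₐ[ℂ] L)
    (hψ : FiniteDimensional ψ.fieldRange L) (hun : UnramifiedOutside ψ y ∅) {c : ℝ}
    (hc : MultiDegreeLe φ ψ y y (n - 1) 1 c) (hc1 : c < 1) :
    NumDimLt y n 0 1 ∧ ∀ m : ℕ, 1 ≤ m → ∀ η : (Fin n → Derivation ℂ K K) → K,
      IsSection y n m 0 η → η ≠ 0 → ∀ P, IsPrimeDivisor y P → OrdEq P η 0 := by
  have hzero : Effective y (0 : Place ℂ K → ℚ) :=
    ⟨fun _ _ => le_rfl, Set.finite_empty.subset (by rintro P ⟨-, h⟩; exact h rfl)⟩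
  have h1 : NumDimLt y n 0 1 := self_gap hy hn hn0 hzero hcan.lc hnef.logNef φ ψ hψ
    (fun Q' hQ' _ => hun Q' hQ' fun h => h) (hcan.multi hy hy hn hn φ ψ hψ _) hc hc1
  refine ⟨h1, fun m hm η hη hη0 P hP => ?_⟩
  have hs : IsSection y n m (m • (0 : Place ℂ K → ℚ)) η := by rwa [smul_zero]
  have h2 := nef_trivialP hy hn hn0 h1 hnef.logNef hm hs hη0 P hP
  rwa [Pi.zero_apply, mul_zero, neg_zero] at h2
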